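import Mathlib
import Pool.Agent.Run7.h191.Strong

/-! The `L²` restriction estimate for spheres in even dimensions over finite fields, in the whole
conjectured range of exponents, endpoint included. -/

set_option autoImplicit false
set_option linter.unusedSectionVars false

namespace Pool.Agent.Results.MP_36ae60_an.FullRange

open Finset

/-- The sphere `x_1² + ... + x_d² = j`. -/
def sphere {F : Type} [Field F] [Fintype F] [DecidableEq F] (d : ℕ) (j : F) :
    Finset (Fin d → F) :=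
  univ.filter (fun x => ∑ i, x i ^ 2 = j)

/-- The Fourier transform `∑_m g(m) χ(-m·x)`. -/
noncomputable def ghat {F : Type} [Field F] [Fintype F] [DecidableEq F] {d : ℕ}
    (χ : AddChar F ℂ) (g : (Fin d → F) → ℂ) (x : Fin d → F) : ℂ :=
  ∑ m : Fin d → F, g m * χ (-∑ i, m i * x i)

/-- The `L²` norm of the Fourier transform of `g` on the sphere with its normalised surface
measure. -/
noncomputable def sphereNorm {F : Type} [Field F] [Fintype F] [DecidableEq F] {d : ℕ}
    (χ : AddChar F ℂ) (j : F) (g : (Fin d → F) → ℂ) : ℝ :=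
  (((sphere d j).card : ℝ)⁻¹ * ∑ x ∈ sphere d j, ‖ghat χ g x‖ ^ 2) ^ (1 / 2 : ℝ)

/-- The `L^p` norm with respect to counting measure. -/
noncomputable def lpNorm {F : Type} [Field F] [Fintype F] [DecidableEq F] {d : ℕ}
    (p : ℝ) (g : (Fin d → F) → ℂ) : ℝ :=
  (∑ m : Fin d → F, ‖g m‖ ^ p) ^ (1 / p)

open Run7.h191 Run7.h191.Sph

variable {F : Type} [Field F] [Fintype F] [DecidableEq F]

theorem ghat_eq {d : ℕ} (χ : AddChar F ℂ) (g : (Fin d → F) → ℂ) (x : Fin d → F) :
    ghat χ g x = FT χ⁻¹ (fun _ => 1) g x := by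
  unfold ghat FT BD
  apply sum_congr rfl
  intro m _
  rw [AddChar.inv_apply]
  simp only [one_mul]

theorem sphere_eq (d : ℕ) (j : F) :
    sphere d j = univ.filter (fun x : Fin d → F => QD (fun _ => 1) x = j) := by
  unfold sphere QD
  simp only [one_mul]

theorem FT_smul {d : ℕ} (ψ : AddChar F ℂ) (a : Fin d → F) (c : ℂ) (g : (Fin d → F) → ℂ)
    (x : Fin d → F) : FT ψ a (c • g) x = c * FT ψ a g x := by
  unfold FT
  rw [mul_sum]
  exact sum_congr rfl (fun m _ => by rw [Pi.smul_apply, smul_eq_mul]; ring)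

theorem NN_smul {d : ℕ} (ψ : AddChar F ℂ) (a : Fin d → F) (j : F) (c : ℂ)
    (g : (Fin d → F) → ℂ) : NN ψ a j (c • g) = ‖c‖ ^ 2 * NN ψ a j g := by
  unfold NN
  rw [mul_sum]
  apply sum_congr rfl
  intro x _
  rw [FT_smul, norm_mul, mul_pow]

/-- the estimate in dimension `2 K + 2` -/
theorem main_bound (K : ℕ) (hK : 1 ≤ K) (hF : ringChar F ≠ 2) (χ : AddChar F ℂ) (hχ : χ ≠ 1)
    (j : F) (hj : j ≠ 0) (p : ℝ) (hp1 : 1 ≤ p) (hp2 : p ≤ (2 * K + 4) / (K + 3))
    (g : (Fin (2 * K + 2) → F) → ℂ) :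
    sphereNorm χ j g ≤ 2 * (1 + 18 * 4 ^ K) * lpNorm p g := by
  have hq := card_pos_real (F := F)
  have hq1 := one_le_card_real (F := F)
  have hq2 : (2 : ℝ) ≤ Fintype.card F := by
    have : 2 ≤ Fintype.card F := Fintype.one_lt_card
    exact_mod_cast this
  have hp0 : 0 < p := by linarith
  have hψ : (χ⁻¹).IsPrimitive := AddChar.IsPrimitive.of_ne_one (inv_ne_one.2 hχ)
  have ha : ∀ i : Fin (2 * K + 2), (fun _ => (1 : F)) i ≠ 0 := fun _ => one_ne_zero
  set q : ℝ := (Fintype.card F : ℝ) with hqd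
  set S : ℝ := ∑ m : Fin (2 * K + 2) → F, ‖g m‖ ^ p with hS
  have hS0 : 0 ≤ S := sum_nonneg (fun m _ => Real.rpow_nonneg (norm_nonneg _) _)
  set M : ℝ := lpNorm p g with hM
  have hMS : M = S ^ (1 / p) := rfl
  have hM0 : 0 ≤ M := Real.rpow_nonneg hS0 _
  have hMp : M ^ p = S := by
    rw [hMS, ← Real.rpow_mul hS0, one_div, inv_mul_cancel₀ hp0.ne', Real.rpow_one]
  -- the sphere is large
  have hcard : q ^ (2 * K + 1) ≤ 2 * ((sphere (2 * K + 2) j).card : ℝ) := by
    obtain ⟨γ, hγ⟩ := exists_isG hF hψ ha (by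
      rw [Fintype.card_fin]
      exact ⟨K + 1, by ring⟩)
    have h1 := Sph.card_sphere hψ hγ hj
    rw [← sphere_eq, Fintype.card_fin, ← hqd] at h1
    have h2 : ‖γ‖ = q ^ (K + 1) := by
      have h3 := hγ.1
      rw [Fintype.card_fin, ← hqd, show 2 * K + 2 = (K + 1) * 2 by ring, pow_mul] at h3
      exact (pow_left_inj₀ (norm_nonneg _) (by positivity) two_ne_zero).1 h3
    rw [h2] at h1
    have h4 : q ^ (2 * K + 2) = q * q ^ (2 * K + 1) := by ring
    have h5 : q ^ (K + 1) = q * q ^ K := by ring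
    rw [h4, h5] at h1
    have h6 : q * q ^ (2 * K + 1) ≤ q * (((sphere (2 * K + 2) j).card : ℝ) + q ^ K) := by
      linarith
    have h7 := le_of_mul_le_mul_left h6 hq
    have h8 : 2 * q ^ K ≤ q ^ (2 * K + 1) := by
      have h9 : q ^ (2 * K + 1) = q ^ (K + 1) * q ^ K := by ring
      rw [h9]
      apply mul_le_mul_of_nonneg_right _ (by positivity)
      calc (2 : ℝ) ≤ q := hq2
        _ = q ^ 1 := (pow_one q).symm
        _ ≤ q ^ (K + 1) := pow_le_pow_right₀ hq1 (by omega)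
    linarith
  have hcard0 : 0 < ((sphere (2 * K + 2) j).card : ℝ) := by
    have : 0 < q ^ (2 * K + 1) := by positivity
    linarith
  -- the main inequality in terms of `NN`
  have hmain : NN χ⁻¹ (fun _ => 1) j g ≤ ((1 + 18 * 4 ^ K) * M) ^ 2 * q ^ (2 * K + 1) := by
    by_cases hMz : M = 0
    · have h1 : S = 0 := by
        rw [← hMp, hMz, Real.zero_rpow hp0.ne']
      have h2 : ∀ m, g m = 0 := by
        intro m
        have h3 := (sum_eq_zero_iff_of_nonneg
          (fun m _ => Real.rpow_nonneg (norm_nonneg (g m)) p)).1 h1 m (mem_univ _)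
        have h4 := (Real.rpow_eq_zero (norm_nonneg _) hp0.ne').1 h3
        exact norm_eq_zero.1 h4
      have h3 : NN χ⁻¹ (fun _ => 1) j g = 0 := by
        unfold NN
        apply sum_eq_zero
        intro x _
        have : FT χ⁻¹ (fun _ => (1 : F)) g x = 0 := by
          unfold FT
          exact sum_eq_zero (fun m _ => by rw [h2, zero_mul])
        rw [this]
        simp
      rw [h3]
      positivity
    · have hMpos : 0 < M := lt_of_le_of_ne hM0 (Ne.symm hMz)
      have hgM : ∀ m, ‖g m‖ ≤ M := by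
        intro m
        have h1 : ‖g m‖ ^ p ≤ M ^ p := by
          rw [hMp, hS]
          exact single_le_sum (fun m _ => Real.rpow_nonneg (norm_nonneg (g m)) p) (mem_univ m)
        exact (Real.rpow_le_rpow_iff (norm_nonneg _) hM0 hp0).1 h1
      set g' : (Fin (2 * K + 2) → F) → ℂ := ((M⁻¹ : ℝ) : ℂ) • g with hg'
      have hg'n : ∀ m, ‖g' m‖ = M⁻¹ * ‖g m‖ := by
        intro m
        rw [hg', Pi.smul_apply, smul_eq_mul, norm_mul, Complex.norm_real, Real.norm_eq_abs,
          abs_of_pos (inv_pos.2 hMpos)]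
      have hg'1 : ∀ m, ‖g' m‖ ≤ 1 := by
        intro m
        rw [hg'n, inv_mul_le_iff₀ hMpos, mul_one]
        exact hgM m
      have hK3 : (0 : ℝ) < (K : ℝ) + 3 := by positivity
      set r : (Fin (2 * K + 2) → F) → ℝ := fun m => ‖g' m‖ ^ (1 / ((K : ℝ) + 3)) with hr
      have hr0 : ∀ m, 0 ≤ r m := fun m => Real.rpow_nonneg (norm_nonneg _) _
      have hr1 : ∀ m, r m ≤ 1 := fun m =>
        Real.rpow_le_one (norm_nonneg _) (hg'1 m) (by positivity)
      have hrg : ∀ m, ‖g' m‖ = r m ^ (K + 3) := by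
        intro m
        rw [hr]
        simp only
        rw [← Real.rpow_natCast, ← Real.rpow_mul (norm_nonneg _)]
        push_cast
        rw [one_div, inv_mul_cancel₀ hK3.ne', Real.rpow_one]
      have hrs : ∀ m, r m ^ (2 * K + 4) ≤ ‖g' m‖ ^ p := by
        intro m
        rw [hr]
        simp only
        rw [← Real.rpow_natCast, ← Real.rpow_mul (norm_nonneg _)]
        push_cast
        rcases eq_or_lt_of_le (norm_nonneg (g' m)) with h0 | h0
        · rw [← h0, Real.zero_rpow hp0.ne', Real.zero_rpow]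
          positivity
        · apply Real.rpow_le_rpow_of_exponent_ge h0 (hg'1 m)
          refine hp2.trans (le_of_eq ?_)
          field_simp
      have hsum : ∑ m, r m ^ (2 * K + 4) ≤ 1 := by
        refine (sum_le_sum (fun m _ => hrs m)).trans (le_of_eq ?_)
        have h1 : ∀ m, ‖g' m‖ ^ p = (M⁻¹) ^ p * ‖g m‖ ^ p := by
          intro m
          rw [hg'n, Real.mul_rpow (inv_nonneg.2 hM0) (norm_nonneg _)]
        simp_rw [h1]
        rw [← mul_sum, ← hS, ← hMp, Real.inv_rpow hM0, inv_mul_cancel₀]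
        exact (Real.rpow_pos_of_pos hMpos p).ne'
      have h1 := strong hK (C := 3 * 100 ^ K) (c := 3 * 4 ^ K) (by positivity) (by positivity)
        (by
          have e1 : ((3 : ℝ) * 4 ^ K) ^ 4 = 81 * 256 ^ K := by
            rw [mul_pow, ← pow_mul, mul_comm K 4, pow_mul]
            norm_num
          have e2 : (100 : ℝ) ^ K ≤ 256 ^ K := pow_le_pow_left₀ (by norm_num) (by norm_num) K
          have e3 : (0 : ℝ) ≤ 100 ^ K := by positivity
          rw [e1]
          linarith) (all_dims hF K) hψ ha hj g' r hr0 hr1 hrg hsum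
      have h2 : NN χ⁻¹ (fun _ => 1) j g' ≤ (1 + 18 * 4 ^ K) ^ 2 * q ^ (2 * K + 1) := by
        rw [← vecE_norm]
        calc _ ≤ ((1 + 6 * (3 * 4 ^ K)) * Real.sqrt (q ^ (2 * K + 1))) ^ 2 :=
              pow_le_pow_left₀ (norm_nonneg _) h1 2
          _ = (1 + 18 * 4 ^ K) ^ 2 * (Real.sqrt (q ^ (2 * K + 1))) ^ 2 := by ring
          _ = _ := by rw [Real.sq_sqrt (by positivity)]
      have h3 : g = ((M : ℝ) : ℂ) • g' := by
        rw [hg', smul_smul, ← Complex.ofReal_mul, mul_inv_cancel₀ hMz, Complex.ofReal_one,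
          one_smul]
      rw [h3, NN_smul, Complex.norm_real, Real.norm_eq_abs, sq_abs]
      calc M ^ 2 * NN χ⁻¹ (fun _ => 1) j g' ≤
          M ^ 2 * ((1 + 18 * 4 ^ K) ^ 2 * q ^ (2 * K + 1)) :=
            mul_le_mul_of_nonneg_left h2 (by positivity)
        _ = _ := by ring
  -- conclusion
  have hNN : ∑ x ∈ sphere (2 * K + 2) j, ‖ghat χ g x‖ ^ 2 = NN χ⁻¹ (fun _ => 1) j g := by
    unfold NN
    rw [← sphere_eq]
    exact sum_congr rfl (fun x _ => by rw [ghat_eq])
  unfold sphereNorm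
  rw [hNN, ← Real.sqrt_eq_rpow]
  apply Real.sqrt_le_iff.2
  refine ⟨by positivity, ?_⟩
  rw [inv_mul_le_iff₀ hcard0]
  refine hmain.trans ?_
  have h1 : ((1 + 18 * 4 ^ K) * M) ^ 2 * q ^ (2 * K + 1) ≤
      ((1 + 18 * 4 ^ K) * M) ^ 2 * (2 * ((sphere (2 * K + 2) j).card : ℝ)) :=
    mul_le_mul_of_nonneg_left hcard (by positivity)
  refine h1.trans ?_
  have h2 : 0 ≤ ((1 + 18 * 4 ^ K) * M) ^ 2 * ((sphere (2 * K + 2) j).card : ℝ) := by positivity
  calc ((1 + 18 * 4 ^ K) * M) ^ 2 * (2 * ((sphere (2 * K + 2) j).card : ℝ)) =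
      2 * (((1 + 18 * 4 ^ K) * M) ^ 2 * ((sphere (2 * K + 2) j).card : ℝ)) := by ring
    _ ≤ 4 * (((1 + 18 * 4 ^ K) * M) ^ 2 * ((sphere (2 * K + 2) j).card : ℝ)) := by linarith
    _ = _ := by ring

/-- **Sharp `L²` restriction for spheres in even dimensions.** For every even `d ≥ 3`, every
finite field `F` of odd characteristic, every nontrivial additive character, every `j ≠ 0` and
every exponent `1 ≤ p ≤ (2d+4)/(d+4)`, the `L^p → L²` restriction constant of the sphere is at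
most `10 · 2^d`. -/
theorem result (d : ℕ) (hd : Even d) (hd3 : 3 ≤ d)
    (F : Type) [Field F] [Fintype F] [DecidableEq F] (hF : ringChar F ≠ 2)
    (χ : AddChar F ℂ) (hχ : χ ≠ 1) (j : F) (hj : j ≠ 0) (p : ℝ) (hp1 : 1 ≤ p)
    (hp2 : p ≤ (2 * d + 4) / (d + 4)) (g : (Fin d → F) → ℂ) :
    sphereNorm χ j g ≤ 10 * 2 ^ d * lpNorm p g := by
  obtain ⟨n, hn⟩ := hd
  obtain ⟨K, hK, rfl⟩ : ∃ K : ℕ, 1 ≤ K ∧ d = 2 * K + 2 := ⟨n - 1, by omega, by omega⟩
  have h1 := main_bound K hK hF χ hχ j hj p hp1 (by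
    refine hp2.trans (le_of_eq ?_)
    push_cast
    rw [div_eq_div_iff (by positivity) (by positivity)]
    ring) g
  refine h1.trans ?_
  apply mul_le_mul_of_nonneg_right
  · have e1 : (2 : ℝ) ^ (2 * K + 2) = 4 * 4 ^ K := by
      rw [pow_add, pow_mul]
      norm_num
      ring
    have e2 : (1 : ℝ) ≤ 4 ^ K := one_le_pow₀ (by norm_num)
    rw [e1]
    linarith
  · exact Real.rpow_nonneg (sum_nonneg (fun m _ => Real.rpow_nonneg (norm_nonneg _) _)) _

end Pool.Agent.Results.MP_36ae60_an.FullRange
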